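import Pool.Agent.Run7.h348.EE.Two

set_option autoImplicit false

/-!
# Soft coordinates are independent of everything else; all but two coordinates soft

For `h_0, …, h_k` distinct, at almost all scales (in the logarithmic average over the scales `N ≤ X`):

* *soft* coordinates `F_i (n + h_i)`, `i ∈ S`, are independent of each other and of the product of
  arbitrary *companions* `F_j (n + h_j)`, `j ∉ S`, any number of them;
* if all coordinates but two are soft, and the two others are two arbitrary functions of `Ω`, or one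
  arbitrary function of `Ω` and one arbitrary bounded multiplicative function, then all the
  coordinates are independent.

Soft functions are the bounded functions of the number `Ω_v (n)` of prime factors up to `v`, of the part
of `n` composed of the primes in `(v, y]` (both exactly; so in particular of all the numbers `Ω_z (n)`
of prime factors up to `z`, `v ≤ z ≤ y`), and of `Ω (n)`, varying slowly with `Ω (n)` only; here `v` is
large and `y` is up to a power `X ^ (1 / A)`. Companions are the products of bounded multiplicative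
functions and arbitrary bounded functions of `Ω_w (n)` and of the part of `n` composed of the primes
above `w`; in particular of all arbitrary functions of `Ω (n)`.
-/

namespace Pool.Agent.Results.MP_e0aac0_nt.AllButTwoCoordinates

open Finset ArithmeticFunction

/-- the number of prime factors `p ≤ y` of `n`, with multiplicity -/
noncomputable def Omega (y n : ℕ) : ℕ := ∑ p ∈ (Ioc 0 y).filter Nat.Prime, n.factorization p

/-- the part of `n` composed of the primes in `(v, y]` -/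
noncomputable def part (v y n : ℕ) : ℕ :=
  ∏ p ∈ (Ioc v y).filter Nat.Prime, p ^ n.factorization p

/-- the mean over `1 ≤ n ≤ N` -/
noncomputable def E (N : ℕ) (F : ℕ → ℂ) : ℂ := (∑ n ∈ Icc 1 N, F n) / N

/-- multiplicative functions bounded by one -/
def Mult (g : ℕ → ℂ) : Prop :=
  (∀ n, ‖g n‖ ≤ 1) ∧ g 1 = 1 ∧
    ∀ m n : ℕ, 1 ≤ m → 1 ≤ n → Nat.Coprime m n → g (m * n) = g m * g n

/-- arbitrary functions of `Ω` bounded by one -/
def OfOmega (F : ℕ → ℂ) : Prop := ∃ b : ℕ → ℂ, (∀ l, ‖b l‖ ≤ 1) ∧ ∀ n, F n = b (cardFactors n)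

/-- Soft functions at the scale `X`, with parameters `A`, `w`, `δ`:
`F n = B (Ω_v (n)) (n_(v, y]) (Ω (n))` for some `w ≤ v ≤ y ≤ X ^ (1 / A)` and some `B` bounded by one
which changes by at most `δ` when the last variable changes by one. -/
def Soft (A w : ℕ) (δ : ℝ) (X : ℕ) (F : ℕ → ℂ) : Prop :=
  ∃ v y : ℕ, w ≤ v ∧ v ≤ y ∧ y ^ A ≤ X ∧ ∃ B : ℕ → ℕ → ℕ → ℂ,
    (∀ l s m, ‖B l s m‖ ≤ 1) ∧ (∀ l s m, ‖B l s (m + 1) - B l s m‖ ≤ δ) ∧
    ∀ n, F n = B (Omega v n) (part v y n) (cardFactors n)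

/-- Companions: `F n = g n * B (Ω_w (n)) (n_(w, ∞))` with `g` multiplicative and `B` arbitrary, both
bounded by one; `n_(w, ∞)` is the part of `n` composed of the primes above `w`. -/
def Companion (w : ℕ) (F : ℕ → ℂ) : Prop :=
  ∃ g : ℕ → ℂ, Mult g ∧ ∃ B : ℕ → ℕ → ℂ, (∀ l s, ‖B l s‖ ≤ 1) ∧
    ∀ n, F n = g n * B (Omega w n) (n / part 0 w n)


/-- Let `k ≥ 1` and let `h_0, …, h_k` be distinct. For every `ε > 0` there are `A`, `w`, `δ > 0` and
`X₀` such that for all `X ≥ X₀` and all `F_0, …, F_k`: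

* if `F_i` is soft for `i ∈ S` and a companion for `i ∉ S`, then the average over the scales `N ≤ X`,
  with weights `1 / N`, of `|E_N ∏ F_i (n + h_i) - ∏_(i ∈ S) E_N F_i · E_N ∏_(i ∉ S) F_i (n + h_i)|` is at
  most `ε`;
* if all `F_i` except `F_(i₀)` and `F_(i₁)` are soft, `F_(i₀)` is an arbitrary function of `Ω` and
  `F_(i₁)` is an arbitrary function of `Ω` or an arbitrary multiplicative function, then the average
  over the scales of `|E_N ∏ F_i (n + h_i) - ∏ E_N F_i|` is at most `ε`. -/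
theorem result (k : ℕ) (hk : 1 ≤ k) (h : Fin (k + 1) → ℕ) (hh : Function.Injective h) (ε : ℝ)
    (hε : 0 < ε) : ∃ (A w : ℕ) (δ : ℝ) (X₀ : ℕ), 0 < δ ∧ ∀ X : ℕ, X₀ ≤ X →
    ∀ F : Fin (k + 1) → ℕ → ℂ,
      (∀ S : Finset (Fin (k + 1)), (∀ i ∈ S, Soft A w δ X (F i)) →
        (∀ i, i ∉ S → Companion w (F i)) →
        ∑ N ∈ Icc 1 X, 1 / (N : ℝ) * ‖E N (fun n => ∏ i, F i (n + h i)) -
          (∏ i ∈ S, E N (F i)) * E N (fun n => ∏ i ∈ Sᶜ, F i (n + h i))‖ ≤ ε * Real.log X) ∧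
      ∀ i₀ i₁ : Fin (k + 1), i₀ ≠ i₁ → (∀ i, i ≠ i₀ → i ≠ i₁ → Soft A w δ X (F i)) →
        OfOmega (F i₀) → (OfOmega (F i₁) ∨ Mult (F i₁)) →
        ∑ N ∈ Icc 1 X, 1 / (N : ℝ) * ‖E N (fun n => ∏ i, F i (n + h i)) - ∏ i, E N (F i)‖ ≤
          ε * Real.log X := by
  classical
  obtain ⟨A1, w1, δ1, X1, hA1, hw1, hδ1, H1⟩ := Pool.Agent.Run7.h348.EE.soft k hk h hh ε hε
  obtain ⟨A2, w2, δ2, X2, hA2, hw2, hδ2, H2⟩ := Pool.Agent.Run7.h348.EE.two k h hh ε hε
  refine ⟨A1 + A2, w1 + w2, min δ1 δ2, X1 + X2, lt_min hδ1 hδ2, fun X hX F => ?_⟩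
  have hE : ∀ (N : ℕ) (φ : ℕ → ℂ), E N φ = Pool.Agent.Run7.h348.EE.EN N φ := fun N φ =>
    Pool.Agent.Run7.h348.EE.EN_div N φ
  have hOy : ∀ y n : ℕ, Omega y n = Pool.Agent.Run7.h348.EE.Oy y n := fun y n =>
    (Pool.Agent.Run7.h348.EE.Oy_eq y n).symm
  have hpart : ∀ v y n : ℕ, part v y n = Pool.Agent.W208.TL.sm v y n := fun _ _ _ => rfl
  have hBM : ∀ g : ℕ → ℂ, Mult g → Pool.Agent.Q270.EA.BM g := by
    intro g hg
    refine ⟨hg.1, hg.2.1, fun m n hmn => ?_⟩
    rcases Nat.eq_zero_or_pos m with h0 | h0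
    · subst h0
      rw [Nat.coprime_zero_left] at hmn
      rw [hmn, mul_one, hg.2.1, mul_one]
    rcases Nat.eq_zero_or_pos n with h1 | h1
    · subst h1
      rw [Nat.coprime_zero_right] at hmn
      rw [hmn, one_mul, hg.2.1, one_mul]
    exact hg.2.2 m n h0 h1 hmn
  have hSoft : ∀ (A w : ℕ) (δ : ℝ), A ≤ A1 + A2 → w ≤ w1 + w2 → min δ1 δ2 ≤ δ → 1 ≤ w1 →
      ∀ f : ℕ → ℂ, Soft (A1 + A2) (w1 + w2) (min δ1 δ2) X f →
      Pool.Agent.Run7.h348.EE.Soft A w δ X f := by
    rintro A w δ hA hw hδ hw1 f ⟨v, y, hv, hvy, hy, B, hB1, hB2, hB⟩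
    refine ⟨v, y, hw.trans hv, hvy, (Nat.pow_le_pow_right (by omega) hA).trans hy, B, hB1,
      fun l s m => (hB2 l s m).trans hδ, ?_⟩
    funext n
    rw [hB n, hOy, hpart]
  have hOf : ∀ f : ℕ → ℂ, OfOmega f → ∃ b : ℕ → ℂ, (∀ l, ‖b l‖ ≤ 1) ∧
      f = fun n => b (cardFactors n) := by
    rintro f ⟨b, hb, hbf⟩
    exact ⟨b, hb, funext hbf⟩
  refine ⟨fun S hS hSc => ?_, fun i₀ i₁ hne hs h0 h1 => ?_⟩
  · have h1 := H1 X (by omega) S F (fun i hi => hSoft A1 w1 δ1 (by omega) (by omega)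
      (min_le_left _ _) (by omega) _ (hS i hi)) (fun i hi => by
        obtain ⟨g, hg, B, hB1, hB⟩ := hSc i hi
        refine ⟨g, fun n => B (Pool.Agent.Run7.h348.EE.Oy (w1 + w2) n)
          (n / Pool.Agent.W208.TL.sm 0 (w1 + w2) n), hBM g hg,
          Pool.Agent.Run7.h348.EE.QM_mono (by omega)
            (Pool.Agent.Run7.h348.EE.QM_rough (w1 + w2) B hB1), ?_⟩
        funext n
        rw [hB n, hOy, hpart])
    simp only [hE]
    exact h1
  · have h2 := H2 X (by omega) i₀ i₁ hne F (fun i hi hi' => hSoft A2 w2 δ2 (by omega) (by omega)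
      (min_le_right _ _) (by omega) _ (hs i hi hi')) (hOf _ h0) (by
        rcases h1 with h1 | h1
        · exact Or.inl (hOf _ h1)
        · exact Or.inr (hBM _ h1))
    simp only [hE]
    exact h2

end Pool.Agent.Results.MP_e0aac0_nt.AllButTwoCoordinates
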