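import Pool.Agent.Run7.h504.OmTup

/-!
# Independence of `Ω (n + h)` of arbitrary sets, for shifts from arbitrary families of nearly minimal energy

For all the members `h` of an ARBITRARY family of `x` shifts with nearly minimal additive energy of some order `p` but
`x / N ^ δ`: the integer part of `Ω(n + h) / 2` is independent, up to `ε`, of each of up to `N ^ δ` ARBITRARY sets of
integers `n`; if the scale `N` has no exceptional character, the same holds for `Ω(n + h)` itself. In particular, for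
all the tuples of members of such families but a power saving, `Ω(n + h i)` is independent of everything that the other
`Ω(n + h j)` determine.

From the starting files: the near invariance of the law of `Ω(n + h)` on arbitrary sets under a shift of the values
(`Pool.Agent.TH823.OP`), and the near orthogonality of slowly varying functions of `Ω(n + h)`, `Ω(n + h')`
(`Pool.Agent.TH823.KB`). A family of nearly minimal energy takes no value often, and this is all that is needed for the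
second part.
-/

set_option autoImplicit false

namespace Pool.Agent.Results.MP_e0aac0_nt.LowEnergyFamilies

open Finset
open ArithmeticFunction (cardFactors)
open Pool.Agent.Run7.h504.OM (cT cn_cT)

/-- The primes `p` with `y < p ≤ z`. -/
def primes (y z : ℕ) : Finset ℕ := (Ioc y z).filter Nat.Prime

/-- The integer part of `N ^ (1 / (2 D))`. -/
noncomputable def root (D N : ℕ) : ℕ := ⌊(N : ℝ) ^ (1 / (2 * D : ℝ))⌋₊

/-- The scale `N` is not exceptional, with `Q = root D N`: no real nonprincipal character of modulus `q ≤ Q` has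
`∑ χ(p) / p < - (3 / 5) ∑ 1 / p` over the primes `p` with `Q ^ 6 < p ≤ Q ^ (6 E)`. -/
def NonExceptional (E D N : ℕ) : Prop :=
  ∀ q : ℕ, 1 ≤ q → q ≤ root D N → ∀ χ : DirichletCharacter ℂ q, χ ≠ 1 → χ ^ 2 = 1 →
    -(3 / 5) * ∑ p ∈ primes (root D N ^ 6) (root D N ^ (6 * E)), 1 / (p : ℝ) ≤
      ∑ p ∈ primes (root D N ^ 6) (root D N ^ (6 * E)), (χ (p : ZMod q)).re / p

open Classical in
/-- The number of the elements of the finite set `S` with the property `F`. -/
noncomputable def num {α : Type} (S : Finset α) (F : α → Prop) : ℝ := ((S.filter F).card : ℝ)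

/-- The proportion of the `n` with `1 ≤ n ≤ N` that have the property `F`. -/
noncomputable def dens (N : ℕ) (F : ℕ → Prop) : ℝ := num (Icc 1 N) F / N

/-- The additive energy of order `p` of the family `t 1, ..., t x`: the number of the solutions of
`t (u 1) + ... + t (u p) = t (v 1) + ... + t (v p)`. -/
def energy (p x : ℕ) (t : ℕ → ℕ) : ℕ :=
  (((Fintype.piFinset fun _ : Fin p => Icc 1 x) ×ˢ (Fintype.piFinset fun _ : Fin p => Icc 1 x)).filter
    (fun q => ∑ i, t (q.1 i) = ∑ i, t (q.2 i))).card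

/-- The natural numbers `t 1, ..., t x` are at most `A N` and their energy of order `p` is nearly minimal: at most
`N ^ δ x ^ (2 p) / N`. -/
def LowEnergy (p A : ℕ) (δ : ℝ) (N x : ℕ) (t : ℕ → ℕ) : Prop :=
  (∀ m ∈ Icc 1 x, t m ≤ A * N) ∧ (energy p x t : ℝ) * N ≤ (N : ℝ) ^ δ * (x : ℝ) ^ (2 * p)

/-- For all the sets `T` of `𝒯` and ALL sets `S`: the integer part of `Ω(n + h) / s` lies in `S` independently, up to
`ε`, of whether `n` lies in `T`, and its law is that of `Ω(n) / s`. -/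
def IndependentOf (s : ℕ) (ε : ℝ) (N : ℕ) (𝒯 : Finset (Set ℕ)) (h : ℕ) : Prop :=
  ∀ T ∈ 𝒯, ∀ S : Set ℕ, |dens N (fun n => cardFactors (n + h) / s ∈ S ∧ n ∈ T) -
    dens N (fun n => cardFactors n / s ∈ S) * dens N (fun n => n ∈ T)| ≤ ε

/-- The vector of the `Ω(n + h j)`, `j ≠ i`. -/
def rest {r : ℕ} (h : Fin (r + 1) → ℕ) (i : Fin (r + 1)) (n : ℕ) : Fin r → ℕ :=
  fun j => cardFactors (n + h (i.succAbove j))

/-- For every coordinate `i`, for all sets `S` of integers and all sets `T` of vectors: the integer part of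
`Ω(n + h i) / s` lies in `S` independently, up to `ε`, of whether the vector of the `Ω(n + h j)`, `j ≠ i`, lies in
`T`, and its law is that of `Ω(n) / s`. In particular the joint law on the products of sets is the product law. -/
def Independent {r : ℕ} (s : ℕ) (ε : ℝ) (N : ℕ) (h : Fin (r + 1) → ℕ) : Prop :=
  (∀ (i : Fin (r + 1)) (S : Set ℕ) (T : Set (Fin r → ℕ)),
    |dens N (fun n => cardFactors (n + h i) / s ∈ S ∧ rest h i n ∈ T) -
      dens N (fun n => cardFactors n / s ∈ S) * dens N (fun n => rest h i n ∈ T)| ≤ ε) ∧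
  ∀ S : Fin (r + 1) → Set ℕ,
    |dens N (fun n => ∀ i, cardFactors (n + h i) / s ∈ S i) - ∏ i, dens N (fun n => cardFactors n / s ∈ S i)| ≤ ε

lemma num_eq {α : Type} (S : Finset α) (F : α → Prop) [DecidablePred F] :
    num S F = ((S.filter F).card : ℝ) := by
  unfold num
  congr

lemma num_congr {α : Type} (S : Finset α) (F G : α → Prop) (h : ∀ a, F a ↔ G a) : num S F = num S G := by
  have : F = G := funext fun a => propext (h a)
  rw [this]

lemma num_cT (N h : ℕ) (S T : Set ℕ) :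
    num (Icc 1 N) (fun n => cardFactors (n + h) ∈ S ∧ n ∈ T) = cT N h S T := by
  unfold num Pool.Agent.Run7.h504.OM.cT
  congr

lemma num_T (N : ℕ) (T : Set ℕ) : num (Icc 1 N) (fun n => n ∈ T) = cT N 0 Set.univ T := by
  rw [← num_cT]
  exact num_congr _ _ _ fun n => ⟨fun h => ⟨Set.mem_univ _, h⟩, fun h => h.2⟩

lemma num_p1 (N : ℕ) (S : Set ℕ) :
    num (Icc 1 N) (fun n => cardFactors n ∈ S) = Pool.Agent.TH823.KB.p1 N 0 S := by
  rw [Pool.Agent.Run7.h504.OM.p1_cT, ← num_cT]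
  exact num_congr _ _ _ fun n => ⟨fun h => ⟨h, Set.mem_univ _⟩, fun h => h.1⟩

lemma num_pn {r : ℕ} (N : ℕ) (h : Fin r → ℕ) (S : Fin r → Set ℕ) :
    num (Icc 1 N) (fun n => ∀ i, cardFactors (n + h i) ∈ S i) = Pool.Agent.TH823.KB.pn N h S := by
  unfold num Pool.Agent.TH823.KB.pn
  congr

lemma energy_eq (p x : ℕ) (t : ℕ → ℕ) :
    Pool.Agent.H373R2.T7.energy p x (fun m => (t m : ℤ)) = energy p x t := by
  unfold energy Pool.Agent.H373R2.T7.energy
  congr 1
  apply filter_congr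
  intro q _
  change (∑ i, ((t (q.1 i) : ℕ) : ℤ) = ∑ i, ((t (q.2 i) : ℕ) : ℤ)) ↔ _
  constructor
  · intro h; exact_mod_cast h
  · intro h; exact_mod_cast h

lemma root_pow {D Q : ℕ} (hD : 1 ≤ D) : root D (Q ^ (2 * D)) = Q := by
  unfold root
  have hD0 : (0 : ℝ) < D := by exact_mod_cast hD
  have h1 : (((Q ^ (2 * D) : ℕ) : ℝ)) ^ (1 / (2 * D : ℝ)) = Q := by
    push_cast
    rw [← Real.rpow_natCast, ← Real.rpow_mul (Nat.cast_nonneg Q)]
    push_cast
    rw [mul_one_div_cancel (by positivity), Real.rpow_one]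
  rw [h1, Nat.floor_natCast]

/-- Let `A`, `p ≥ 1` and `r` be integers and `ε > 0`. There are `E ≥ 1`, `D ≥ 6 E + 2` and `δ > 0` such that the
following holds for all large `N`.

(1) Let `t 1, ..., t x` be an ARBITRARY family of natural numbers up to `A N` with nearly minimal energy of order `p`,
and let `𝒯` be an ARBITRARY collection of up to `N ^ δ` sets of integers. Then, for all `m ≤ x` but `x / N ^ δ`, the
integer part of `Ω(n + t m) / 2` is distributed on each set `T` of `𝒯` like the integer part of `Ω(n) / 2` on all the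
integers up to `N`, up to `ε`; if the scale `N` is not exceptional, the same holds for `Ω(n + t m)` itself.
(2) Let `t i 1, ..., t i (x i)`, `0 ≤ i ≤ r`, be `r + 1` such families. All the tuples `m` with `1 ≤ m i ≤ x i` but
`x 0 ⋯ x r / N ^ δ` of them are such that, for every `i`, the integer part of `Ω(n + t i (m i)) / 2` is independent, up
to `ε`, of all the events that depend on the vector of the `Ω(n + t j (m j))`, `j ≠ i`, and is distributed as the
integer part of `Ω(n) / 2`; if the scale `N` is not exceptional, the same holds for `Ω(n + t i (m i))` itself.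

There are arbitrarily large scales that are not exceptional. -/
theorem result (A p r : ℕ) (hp : 1 ≤ p) (ε : ℝ) (hε : 0 < ε) :
    ∃ E D : ℕ, 1 ≤ E ∧ 6 * E + 2 ≤ D ∧ ∃ δ : ℝ, 0 < δ ∧
      (∃ N₀ : ℕ, ∀ N : ℕ, N₀ ≤ N →
        (∀ (x : ℕ) (t : ℕ → ℕ), LowEnergy p A δ N x t → ∀ 𝒯 : Finset (Set ℕ), (𝒯.card : ℝ) ≤ (N : ℝ) ^ δ →
          num (Icc 1 x) (fun m => ¬ IndependentOf 2 ε N 𝒯 (t m)) ≤ x * (N : ℝ) ^ (-δ) ∧
          (NonExceptional E D N → num (Icc 1 x) (fun m => ¬ IndependentOf 1 ε N 𝒯 (t m)) ≤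
            x * (N : ℝ) ^ (-δ))) ∧
        (∀ (x : Fin (r + 1) → ℕ) (t : Fin (r + 1) → ℕ → ℕ), (∀ i, LowEnergy p A δ N (x i) (t i)) →
          num (Fintype.piFinset fun i => Icc 1 (x i)) (fun m => ¬ Independent 2 ε N fun i => t i (m i)) ≤
            (∏ i, (x i : ℝ)) * (N : ℝ) ^ (-δ) ∧
          (NonExceptional E D N →
            num (Fintype.piFinset fun i => Icc 1 (x i)) (fun m => ¬ Independent 1 ε N fun i => t i (m i)) ≤
              (∏ i, (x i : ℝ)) * (N : ℝ) ^ (-δ)))) ∧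
      ∀ N₁ : ℕ, ∃ N : ℕ, N₁ ≤ N ∧ NonExceptional E D N := by
  classical
  obtain ⟨E01, hgs⟩ := Pool.Agent.TH823.PS.good_scales
  have hr0 : (0 : ℝ) < (r : ℝ) + 1 := by positivity
  set ε1 : ℝ := ε / (2 * (r + 1)) with hε1
  have hε10 : 0 < ε1 := by positivity
  obtain ⟨E, D, hE, hD, δ0, hδ0, N1, h1⟩ := Pool.Agent.Run7.h504.OM.one_coord E01 A p hp hε10
  obtain ⟨C, hC, hom⟩ := Pool.Agent.TH823.OP.om_count
  set Kc : ℝ := 16 * ((A : ℝ) + 1) * (2 + C) * (r + 1) / ε1 with hKc
  obtain ⟨N2, hN2⟩ := Pool.Agent.TH823.OP.J_exists Kc δ0 (by positivity) hδ0 r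
  obtain ⟨N3, hN3⟩ := Pool.Agent.TH823.KB.power_beats ((r : ℝ) + 1) (δ0 / 2) (by positivity)
  have hεr : ε1 + ε1 / 4 ≤ ε / (r + 1) := by
    have e1 : ε / (r + 1) = 2 * ε1 := by
      rw [hε1]
      field_simp
    rw [e1]
    linarith
  have hεr2 : ε / (r + 1) ≤ ε := div_le_self hε.le (by linarith [(Nat.cast_nonneg r : (0 : ℝ) ≤ r)])
  have hεr3 : ε1 ≤ ε := by linarith
  -- the statement for `s = 1` and `s = 2`
  have key : ∀ N : ℕ, N1 + N2 + N3 + A + 3 ≤ N → ∀ s : ℕ,
      (s = 1 ∧ Pool.Agent.TH823.PS.NE 6 E ⌊(N : ℝ) ^ (1 / (2 * D : ℝ))⌋₊ ∨ s = 2) →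
      (∀ (x : ℕ) (t : ℕ → ℕ), LowEnergy p A (δ0 / 2) N x t → ∀ 𝒯 : Finset (Set ℕ),
        (𝒯.card : ℝ) ≤ (N : ℝ) ^ (δ0 / 2) →
        num (Icc 1 x) (fun m => ¬ IndependentOf s ε N 𝒯 (t m)) ≤ x * (N : ℝ) ^ (-(δ0 / 2))) ∧
      (∀ (x : Fin (r + 1) → ℕ) (t : Fin (r + 1) → ℕ → ℕ), (∀ i, LowEnergy p A (δ0 / 2) N (x i) (t i)) →
        num (Fintype.piFinset fun i => Icc 1 (x i)) (fun m => ¬ Independent s ε N fun i => t i (m i)) ≤
          (∏ i, (x i : ℝ)) * (N : ℝ) ^ (-(δ0 / 2))) := by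
    intro N hN s hs
    have hNr : (1 : ℝ) ≤ N := by exact_mod_cast (by omega : 1 ≤ N)
    have hN0 : (0 : ℝ) < N := by linarith
    have hmono : (N : ℝ) ^ (δ0 / 2) ≤ (N : ℝ) ^ δ0 := Real.rpow_le_rpow_of_exponent_le hNr (by linarith)
    have hmono' : (N : ℝ) ^ (-δ0) ≤ (N : ℝ) ^ (-(δ0 / 2)) := Real.rpow_le_rpow_of_exponent_le hNr (by linarith)
    have hone := h1 N (by omega) s hs
    have hen : ∀ (x : ℕ) (t : ℕ → ℕ), LowEnergy p A (δ0 / 2) N x t →
        (Pool.Agent.H373R2.T7.energy p x (fun m => (t m : ℤ)) : ℝ) * N ≤ (N : ℝ) ^ δ0 * (x : ℝ) ^ (2 * p) := by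
      intro x t ht
      rw [energy_eq]
      exact ht.2.trans (mul_le_mul_of_nonneg_right hmono (by positivity))
    refine ⟨fun x t ht 𝒯 h𝒯 => ?_, fun x t ht => ?_⟩
    · have h2 := hone x t ht.1 (hen x t ht) 𝒯 (h𝒯.trans hmono)
      refine le_trans ?_ (h2.trans (mul_le_mul_of_nonneg_left hmono' (Nat.cast_nonneg _)))
      rw [num_eq]
      apply Nat.cast_le.2
      apply card_le_card
      intro m hm
      rw [mem_filter] at hm ⊢
      refine ⟨hm.1, fun hcon => hm.2 fun T hT S => ?_⟩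
      have h3 := (hcon T hT S).trans hεr3
      rw [← num_cT, ← num_p1, ← num_T] at h3
      exact h3
    · obtain ⟨J, hll, hJ, hcount⟩ := hN2 N (by omega)
      have h2 := Pool.Agent.Run7.h504.OM.tuples (A := A) (p := p) (k := r) (s := s) (N := N) (J := J) (ε := ε1)
        (ε1 := ε1) (δ := δ0) (by omega) hone
        (fun h hh => Pool.Agent.TH823.OP.big_count hom hC (by omega : A + 1 ≤ N) (by omega) hll hJ hε10 h hh)
        (by
          refine le_trans ?_ hcount
          have e1 : (2 : ℝ) ^ ((J + 1) ^ r) ≤ 2 ^ ((J + 3) + (J + 1) ^ r) :=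
            pow_le_pow_right₀ (by norm_num) (by omega)
          have e2 : (1 : ℝ) ≤ (r : ℝ) + 1 := by linarith [(Nat.cast_nonneg r : (0 : ℝ) ≤ r)]
          calc (2 : ℝ) ^ ((J + 1) ^ r) ≤ 1 * 2 ^ ((J + 3) + (J + 1) ^ r) := by rw [one_mul]; exact e1
            _ ≤ _ := mul_le_mul_of_nonneg_right e2 (by positivity))
        x t (fun i => (ht i).1) (fun i => hen _ _ (ht i))
      have h3 : ((r : ℝ) + 1) * ((∏ i, (x i : ℝ)) * (N : ℝ) ^ (-δ0)) ≤
          (∏ i, (x i : ℝ)) * (N : ℝ) ^ (-(δ0 / 2)) := by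
        have e1 := hN3 N (by omega)
        have e2 : 0 ≤ (∏ i, (x i : ℝ)) * (N : ℝ) ^ (-δ0) :=
          mul_nonneg (prod_nonneg fun _ _ => Nat.cast_nonneg _) (by positivity)
        calc ((r : ℝ) + 1) * ((∏ i, (x i : ℝ)) * (N : ℝ) ^ (-δ0))
            ≤ (N : ℝ) ^ (δ0 / 2) * ((∏ i, (x i : ℝ)) * (N : ℝ) ^ (-δ0)) := mul_le_mul_of_nonneg_right e1 e2
          _ = (∏ i, (x i : ℝ)) * ((N : ℝ) ^ (δ0 / 2) * (N : ℝ) ^ (-δ0)) := by ring
          _ = _ := by
              rw [← Real.rpow_add hN0]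
              congr
              ring
      refine le_trans ?_ (h2.trans h3)
      rw [num_eq]
      apply Nat.cast_le.2
      apply card_le_card
      intro m hm
      rw [mem_filter] at hm ⊢
      refine ⟨hm.1, fun hcon => hm.2 ?_⟩
      set h : Fin (r + 1) → ℕ := fun i => t i (m i) with hh
      have hN1 : 1 ≤ N := by omega
      refine ⟨fun i S T => ?_, fun S => ?_⟩
      · have h4 := (hcon i S T).trans (hεr.trans hεr2)
        rw [cn_cT, cn_cT, Pool.Agent.Run7.h504.OM.cT_zero, ← num_cT, ← num_p1, ← num_T] at h4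
        exact h4
      · have h5 := Pool.Agent.TH823.KB.prod_of_full hN1 h (fun i => {l | l / s ∈ S i})
          (fun i T => (hcon i (S i) T).trans hεr)
        have e1 : ((r : ℝ) + 1) * (ε / (r + 1)) = ε := by field_simp
        rw [e1] at h5
        have e2 : ∀ i, Pool.Agent.TH823.KB.p1 N 0 {l | l / s ∈ S i} = num (Icc 1 N) (fun n => cardFactors n / s ∈ S i) :=
          fun i => (num_p1 N {l | l / s ∈ S i}).symm
        simp only [e2] at h5
        rw [← num_pn] at h5
        exact h5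
  refine ⟨E, D, by omega, hD, δ0 / 2, by positivity, ⟨N1 + N2 + N3 + A + 3, fun N hN => ?_⟩, fun N₁ => ?_⟩
  · have hNE : NonExceptional E D N → Pool.Agent.TH823.PS.NE 6 E ⌊(N : ℝ) ^ (1 / (2 * D : ℝ))⌋₊ := by
      intro hne q _ hq χ hχ1 hχ2
      have h5 := hne q (Nat.pos_of_ne_zero (NeZero.ne q)) hq χ hχ1 hχ2
      refine le_trans h5 (le_of_eq ?_)
      apply sum_congr rfl
      intro p _
      rw [Pool.Agent.TH823.PS.rt_zero]
    have k2 := key N hN 2 (Or.inr rfl)
    refine ⟨fun x t ht 𝒯 h𝒯 => ⟨k2.1 x t ht 𝒯 h𝒯, fun hne => ?_⟩, fun x t ht => ⟨k2.2 x t ht, fun hne => ?_⟩⟩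
    · exact (key N hN 1 (Or.inl ⟨rfl, hNE hne⟩)).1 x t ht 𝒯 h𝒯
    · exact (key N hN 1 (Or.inl ⟨rfl, hNE hne⟩)).2 x t ht
  · obtain ⟨Q, hQ, hNE⟩ := hgs E (by omega) 6 (by norm_num) (N₁ + 1)
    refine ⟨Q ^ (2 * D), ?_, ?_⟩
    · have : Q ≤ Q ^ (2 * D) := Nat.le_self_pow (by omega) Q
      omega
    · intro q hq1 hq χ hχ1 hχ2
      rw [root_pow (by omega)] at hq ⊢
      have : NeZero q := ⟨by omega⟩
      refine le_trans (hNE q hq χ hχ1 hχ2) (le_of_eq ?_)
      apply sum_congr rfl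
      intro p _
      rw [Pool.Agent.TH823.PS.rt_zero]

end Pool.Agent.Results.MP_e0aac0_nt.LowEnergyFamilies
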