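import Mathlib
import Pool.Agent.Run7.h18.MK.Hyb3

set_option autoImplicit false

/-!
# Parities of `Ω(a_i + f_i(m))`, also with some of the `a_i + f_i(m)` simultaneously prime: almost all constant terms, all
polynomials at once, `m` up to `N^(1/(3 deg)) log^C N`

Uses project MK of this run (the one-shift laws for short shifts, for primes and for the Liouville function), the
polynomial Weyl sums `H373R2.NB.IW_all` and the sifted counts `H373R2.T7.sys_count` of the starting files.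
-/

open Polynomial Finset

namespace Pool.Agent.Results.MP_e0aac0_nt.ParitiesAlongPolynomialSystems

/-- What a system asks of one value `n`: `t = 0` asks for a prime (counted with `log n`), `t = 1` asks that `Ω(n)` is even,
`t = 2` asks that `Ω(n)` is odd, where `Ω` is the number of the prime factors with multiplicity. -/
noncomputable def weight (t : Fin 3) (n : ℕ) : ℝ :=
  if t = 0 then (if n.Prime then Real.log n else 0)
  else if t = 1 then (if Even (ArithmeticFunction.cardFactors n) then 1 else 0)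
  else (if Odd (ArithmeticFunction.cardFactors n) then 1 else 0)

/-- The number of the residues `r` modulo `p` for which `p` divides the product of the `a_i + f_i(r)` over the `i` with
`t_i = 0`. -/
noncomputable def rootCount {k : ℕ} (t : Fin k → Fin 3) (f : Fin k → ℤ[X]) (a : Fin k → ℕ) (p : ℕ) : ℕ :=
  ((range p).filter (fun r : ℕ =>
    (p : ℤ) ∣ ∏ i ∈ univ.filter (fun i => t i = 0), ((a i : ℤ) + (f i).eval (r : ℤ)))).card

/-- The expected density: `(1/2)` to the number of the `i` with `t_i ≠ 0`, times the product of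
`(1 - rootCount / p) / (1 - 1 / p) ^ j` over the primes `p ≤ z`, where `j` is the number of the `i` with `t_i = 0`. -/
noncomputable def density {k : ℕ} (t : Fin k → Fin 3) (f : Fin k → ℤ[X]) (a : Fin k → ℕ) (z : ℕ) : ℝ :=
  (1 / 2) ^ (univ.filter (fun i => ¬ t i = 0)).card * ∏ p ∈ (Icc 1 z).filter Nat.Prime,
    (1 - (rootCount t f a p : ℝ) / p) / (1 - 1 / (p : ℝ)) ^ (univ.filter (fun i => t i = 0)).card

/-- Let `k ≥ 1`, `d ≥ 1`, `T` and `U` be integers. There are `C` and `B` such that for every `E` and all large `N`, with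
`L = log N`, and for every `z` between `L ^ B` and `L ^ E`, all but at most `N ^ k / L ^ U` of the vectors
`(a_1, ..., a_k)` of integers in `[1, N]` have the following property: for ALL systems `f_1, ..., f_k` of integer
polynomials with `1 ≤ deg f_i ≤ d` and coefficients at most `L ^ T` in absolute value, ALL patterns
`t : {1, ..., k} → {prime, Ω even, Ω odd}` and ALL integers `x` with `N ^ (1/3) L ^ C ≤ x ^ (deg f_i) ≤ N / L ^ C` for
all `i`, the numbers `a_i + f_i(m)`, `m ≤ x`, are positive, the `m ≤ x` for which the `a_i + f_i(m)` have the pattern `t`,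
counted with the product of the logarithms of those asked to be prime, number `x * density + O(x / L ^ U)`, and if no
prime divides the product of the `a_i + f_i(m)` with `t_i = 0` for all `m`, then the density is at least
`1 / L ^ (k d + 2)` and (if `U ≥ k d + 3`) there is an `m ≤ x` for which `a_i + f_i(m)` is a prime for all `i` with
`t_i = 0`, `Ω(a_i + f_i(m))` is even for all `i` with `t_i = 1` and odd for all `i` with `t_i = 2`. -/
theorem result (k d T U : ℕ) (hk : 1 ≤ k) (hd : 1 ≤ d) : ∃ C B : ℕ, ∀ E : ℕ, ∃ N₀ : ℕ, ∀ N : ℕ, N₀ ≤ N → ∀ z : ℕ,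
    Real.log N ^ B ≤ z → (z : ℝ) ≤ Real.log N ^ E →
    ∃ Ex : Finset (Fin k → ℕ), (Ex.card : ℝ) ≤ (N : ℝ) ^ k / Real.log N ^ U ∧
      ∀ a : Fin k → ℕ, (∀ i, 1 ≤ a i ∧ a i ≤ N) → a ∉ Ex →
      ∀ f : Fin k → ℤ[X], (∀ i, 1 ≤ (f i).natDegree ∧ (f i).natDegree ≤ d ∧
        ∀ j, |(((f i).coeff j : ℤ) : ℝ)| ≤ Real.log N ^ T) →
      ∀ t : Fin k → Fin 3,
      ∀ x : ℕ, (∀ i, (N : ℝ) ^ (1 / 3 : ℝ) * Real.log N ^ C ≤ (x : ℝ) ^ (f i).natDegree ∧
          (x : ℝ) ^ (f i).natDegree * Real.log N ^ C ≤ N) →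
        (∀ i, ∀ m ∈ Icc 1 x, 1 ≤ (a i : ℤ) + (f i).eval (m : ℤ)) ∧
        |∑ m ∈ Icc 1 x, ∏ i, weight (t i) ((a i : ℤ) + (f i).eval (m : ℤ)).toNat - x * density t f a z| ≤
          x / Real.log N ^ U ∧
        ((∀ p : ℕ, p.Prime → ∃ m : ℤ, ¬ (p : ℤ) ∣ ∏ i ∈ univ.filter (fun i => t i = 0), ((a i : ℤ) + (f i).eval m)) →
          1 / Real.log N ^ (k * d + 2) ≤ density t f a z ∧
          (k * d + 3 ≤ U → ∃ m ∈ Icc 1 x, ∀ i,
            (t i = 0 → ((a i : ℤ) + (f i).eval (m : ℤ)).toNat.Prime) ∧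
            (t i = 1 → Even (ArithmeticFunction.cardFactors ((a i : ℤ) + (f i).eval (m : ℤ)).toNat)) ∧
            (t i = 2 → Odd (ArithmeticFunction.cardFactors ((a i : ℤ) + (f i).eval (m : ℤ)).toNat)))) := by
  classical
  obtain ⟨C, B, h⟩ := Pool.Agent.Run7.h18.MK.sys_hyb k d T U hk hd
  refine ⟨C, B, fun E => ?_⟩
  obtain ⟨N₁, h⟩ := h E
  obtain ⟨N₂, h2⟩ := Pool.Agent.Run7.h18.MK.ev 1 2
  refine ⟨N₁ + N₂, fun N hN z hz1 hz2 => ?_⟩
  obtain ⟨Ex, hE1, hE2⟩ := h N (by omega) z hz1 hz2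
  obtain ⟨hL2, -⟩ := h2 N (by omega)
  have hL0 : 0 < Real.log (N : ℝ) := by linarith
  refine ⟨Ex, hE1, fun a ha haE f hf t x hx12 => ?_⟩
  obtain ⟨a1, a2⟩ := hE2 a (by
    rw [Fintype.mem_piFinset]
    intro i
    exact mem_Icc.2 (ha i)) haE f hf t
  obtain ⟨a3, a4⟩ := a2 x hx12
  have hroot : ∀ p : ℕ, rootCount t f a p =
      Pool.Agent.H373R2.T7.nuB (Pool.Agent.Run7.h18.MK.Rt (Pool.Agent.Run7.h18.MK.gS (Pool.Agent.Run7.h18.MK.It t) f a) 0) p := by
    intro p
    unfold rootCount Pool.Agent.H373R2.T7.nuB Pool.Agent.Run7.h18.MK.Rt Pool.Agent.Run7.h18.MK.It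
    simp only [Pool.Agent.Run7.h18.MK.gS_eval, zero_add]
  have hpr : ∏ p ∈ (Icc 1 z).filter Nat.Prime, (1 - (rootCount t f a p : ℝ) / p) = ∏ p ∈ (Icc 1 z).filter Nat.Prime,
      (1 - (Pool.Agent.H373R2.T7.nuB (Pool.Agent.Run7.h18.MK.Rt
        (Pool.Agent.Run7.h18.MK.gS (Pool.Agent.Run7.h18.MK.It t) f a) 0) p : ℝ) / p) :=
    prod_congr rfl fun p _ => by rw [hroot p]
  have hden : density t f a z =
      Pool.Agent.Run7.h18.MK.densT t (Pool.Agent.Run7.h18.MK.gS (Pool.Agent.Run7.h18.MK.It t) f a) z := by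
    unfold density Pool.Agent.Run7.h18.MK.densT Pool.Agent.Run7.h18.MK.dens Pool.Agent.H373R2.T7.Vz Pool.Agent.H373R2.T7.pz
    rw [prod_div_distrib, prod_pow, hpr]
    congr 1
    rw [div_eq_inv_mul, inv_pow]
    rfl
  have hcf : ∀ n : ℕ, ArithmeticFunction.cardFactors n = n.primeFactorsList.length := fun n =>
    ArithmeticFunction.cardFactors_apply
  have hwt : ∀ (s : Fin 3) (n : ℤ), 1 ≤ n → Pool.Agent.Run7.h18.MK.uu s n = weight s n.toNat := by
    intro s n hn
    have hn0 : n.toNat ≠ 0 := by omega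
    have hg : Pool.Agent.Run7.h27.MK.gI Pool.Agent.Run7.h794.MK.lio n = (-1) ^ (ArithmeticFunction.cardFactors n.toNat) := by
      unfold Pool.Agent.Run7.h27.MK.gI Pool.Agent.Run7.h794.MK.lio
      rw [if_pos hn, if_neg hn0, hcf]
    unfold Pool.Agent.Run7.h18.MK.uu weight
    by_cases h0 : s = 0
    · rw [if_pos h0, if_pos h0]
      rfl
    · rw [if_neg h0, if_neg h0, hg]
      rcases Nat.even_or_odd (ArithmeticFunction.cardFactors n.toNat) with he | ho
      · have ho' : ¬ Odd (ArithmeticFunction.cardFactors n.toNat) := Nat.not_odd_iff_even.2 he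
        rw [if_pos he, if_neg ho', he.neg_one_pow]
        norm_num
      · have he' : ¬ Even (ArithmeticFunction.cardFactors n.toNat) := Nat.not_even_iff_odd.2 ho
        rw [if_neg he', if_pos ho, ho.neg_one_pow]
        norm_num
  have hsum : ∑ m ∈ Icc 1 x, ∏ i, weight (t i) ((a i : ℤ) + (f i).eval (m : ℤ)).toNat =
      ∑ m ∈ Icc 1 x, ∏ i, Pool.Agent.Run7.h18.MK.uu (t i) ((a i : ℤ) + (f i).eval (m : ℤ)) :=
    sum_congr rfl fun m hm => prod_congr rfl fun i _ => (hwt (t i) _ (a3 i m hm)).symm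
  have hfixeq : (∀ p : ℕ, p.Prime → ∃ m : ℤ, ¬ (p : ℤ) ∣ ∏ i ∈ univ.filter (fun i => t i = 0), ((a i : ℤ) + (f i).eval m)) →
      1 / Real.log N ^ (k * d + 2) ≤ density t f a z := by
    intro hfix
    rw [hden]
    apply a1
    intro p hp
    obtain ⟨m, hm⟩ := hfix p hp
    refine ⟨m, ?_⟩
    rw [Pool.Agent.Run7.h18.MK.gS_eval]
    exact hm
  have hmain : |∑ m ∈ Icc 1 x, ∏ i, weight (t i) ((a i : ℤ) + (f i).eval (m : ℤ)).toNat - x * density t f a z| ≤
      x / Real.log N ^ U := by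
    rw [hden, hsum]
    exact a4
  refine ⟨a3, hmain, fun hfix => ⟨hfixeq hfix, fun hU => ?_⟩⟩
  by_contra hcon
  push Not at hcon
  have h7 : ∑ m ∈ Icc 1 x, ∏ i, weight (t i) ((a i : ℤ) + (f i).eval (m : ℤ)).toNat = 0 := by
    apply sum_eq_zero
    intro m hm
    obtain ⟨i, hi⟩ := hcon m hm
    apply prod_eq_zero (mem_univ i)
    unfold weight
    by_cases h0 : t i = 0
    · rw [if_pos h0]
      apply if_neg
      intro hp
      have h10 : t i ≠ 1 := by rw [h0]; decide
      have h11 : t i ≠ 2 := by rw [h0]; decide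
      exact h11 (hi (fun _ => hp) (fun h => absurd h h10)).1
    · rw [if_neg h0]
      by_cases h1 : t i = 1
      · rw [if_pos h1]
        apply if_neg
        intro he
        have h11 : t i ≠ 2 := by rw [h1]; decide
        exact h11 (hi (fun h => absurd h h0) (fun _ => he)).1
      · rw [if_neg h1]
        apply if_neg
        exact (hi (fun h => absurd h h0) (fun h => absurd h h1)).2
  rw [h7, zero_sub, abs_neg] at hmain
  have h8 := hfixeq hfix
  obtain ⟨hx1, -⟩ := hx12 ⟨0, hk⟩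
  have hxe : (0 : ℝ) < (x : ℝ) ^ (f ⟨0, hk⟩).natDegree := by
    refine lt_of_lt_of_le ?_ hx1
    have : (0 : ℝ) < N := by
      have h9 : N ≠ 0 := by
        intro h9
        rw [h9, Nat.cast_zero, Real.log_zero] at hL2
        linarith
      exact_mod_cast Nat.pos_of_ne_zero h9
    positivity
  have hx0 : (0 : ℝ) < x := by
    rcases Nat.eq_zero_or_pos x with h | h
    · have := (hf ⟨0, hk⟩).1
      rw [h, Nat.cast_zero, zero_pow (by omega)] at hxe
      exact absurd hxe (lt_irrefl _)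
    · exact_mod_cast h
  have h9 : (x : ℝ) * (1 / Real.log N ^ (k * d + 2)) ≤ x / Real.log N ^ U :=
    (mul_le_mul_of_nonneg_left h8 hx0.le).trans ((le_abs_self _).trans hmain)
  have h10 : (x : ℝ) / Real.log N ^ U < x * (1 / Real.log N ^ (k * d + 2)) := by
    rw [mul_one_div]
    apply div_lt_div_of_pos_left hx0 (by positivity)
    calc Real.log (N : ℝ) ^ (k * d + 2) < Real.log (N : ℝ) ^ (k * d + 3) := pow_lt_pow_right₀ (by linarith) (by omega)
      _ ≤ _ := pow_le_pow_right₀ (by linarith) hU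
  linarith

end Pool.Agent.Results.MP_e0aac0_nt.ParitiesAlongPolynomialSystems
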