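import Pool.Agent.Run7.h348.EF.Diag
import Pool.Agent.Run7.h348.EF.Sharp

set_option autoImplicit false

/-!
# The values of `Ω` at several points, jointly with the whole rest of the numbers: the diagonal shift is
an asymptotic symmetry, and it is the only one

Write `n = rest w n * (product of the primes p ≤ w which divide n exactly once)` and let `count w n` be
the number of these primes. The pair `(count w n, rest w n)` determines `Ω (n)`, `ω (n)`, all the prime
factors of `n` above `w` and all the prime powers dividing `n`; only the identity of the primes `p ≤ w`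
dividing `n` exactly once is forgotten.

* At almost all scales the joint law of these pairs at the points `a_j n + b_j`, tested on products of
  ARBITRARY bounded functions (and of multiplicative functions whose product is `1` at the primes
  `p ≤ w`), is almost invariant under adding `(1, …, 1)` to the counts; here `w` is a large constant.
* So the correlations of `z_j ^ count` and of arbitrary functions of the rests vanish if the product of
  the `z_j` is not `1`. For `z_j = ± 1` with an odd number of minus signs this is a form of Chowla's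
  conjecture of odd order with arbitrary weights: `λ (n) = (-1) ^ (count w n) * λ (rest w n)`.
* No shift of the counts by a vector which is not constant has this property.
-/

namespace Pool.Agent.Results.MP_e0aac0_nt.SmallPrimesShift

open Finset

/-- the primes `p ≤ w` which divide `n` exactly once -/
def simple (w n : ℕ) : Finset ℕ := (Ioc 0 w).filter (fun p => p.Prime ∧ n.factorization p = 1)

/-- their number -/
def count (w n : ℕ) : ℕ := (simple w n).card

/-- the number `n` without these primes -/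
def rest (w n : ℕ) : ℕ := n / ∏ p ∈ simple w n, p

/-- the mean over `1 ≤ n ≤ N` -/
noncomputable def E (N : ℕ) (F : ℕ → ℂ) : ℂ := (∑ n ∈ Icc 1 N, F n) / N

/-- the point `|a_j n + b_j|` -/
def pt {k : ℕ} (a : Fin k → ℕ) (b : Fin k → ℤ) (n : ℕ) (j : Fin k) : ℕ := ((a j : ℤ) * n + b j).natAbs

/-- `∏ j, f_j (m_j) Φ_j (count w m_j + v_j, rest w m_j)` at the points `m_j = |a_j n + b_j|` -/
noncomputable def prod {k : ℕ} (a : Fin k → ℕ) (b : Fin k → ℤ) (w : ℕ) (f : Fin k → ℕ → ℂ)
    (Φ : Fin k → ℕ → ℕ → ℂ) (v : Fin k → ℕ) (n : ℕ) : ℂ :=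
  ∏ j, f j (pt a b n j) * Φ j (count w (pt a b n j) + v j) (rest w (pt a b n j))

/-- the mean over `n ≤ N` of the difference of the product at the values of the pairs and of the product after
adding `v_j` to the counts -/
noncomputable def gap {k : ℕ} (a : Fin k → ℕ) (b : Fin k → ℤ) (w : ℕ) (f : Fin k → ℕ → ℂ)
    (Φ : Fin k → ℕ → ℕ → ℂ) (v : Fin k → ℕ) (N : ℕ) : ℂ :=
  E N (fun n => prod a b w f Φ (fun _ => 0) n - prod a b w f Φ v n)

open Classical in
/-- the `1 ≤ i ≤ J` such that `‖D y‖ > ε` for some `y` in `[N / 2 ^ (i + 1), N / 2 ^ i]` -/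
noncomputable def exceptional (D : ℕ → ℂ) (ε : ℝ) (J N : ℕ) : Finset ℕ :=
  (Icc 1 J).filter (fun i => ∃ y : ℕ, N / 2 ^ (i + 1) ≤ y ∧ y ≤ N / 2 ^ i ∧ ε < ‖D y‖)

/-- multiplicative functions bounded by one -/
def Mult (f : ℕ → ℂ) : Prop :=
  (∀ n, ‖f n‖ ≤ 1) ∧ ∀ m n : ℕ, Nat.Coprime m n → f (m * n) = f m * f n

/-- Let `a_j ≥ 1` and `b_j` be integers.

(0) For every `ε > 0` there is `C` such that for each `J` there is `W` such that for all `N ≥ W`, all bounded
multiplicative functions `f_j` whose product is `1` at the primes `p ≤ W` and all bounded functions `Φ_j`,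
the exceptional scales `i ≤ J`, where the mean of `∏ f_j Φ_j (count W, rest W) -
∏ f_j Φ_j (count W + 1, rest W)` over `n ≤ y` is more than `ε` for some `y` in
`[N / 2 ^ (i + 1), N / 2 ^ i]`, satisfy `∑ 1 / i ≤ C`.

(1) For every `ε > 0` there are `w` and `X₀` such that for all `X ≥ X₀`, all bounded multiplicative
functions `f_j` whose product is `1` at the primes `p ≤ w` and all bounded functions `Φ_j`, the average
over the scales `N ≤ X`, with weights `1 / N`, of the absolute value of the mean over `n ≤ N` of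
`∏ f_j Φ_j (count w, rest w) - ∏ f_j Φ_j (count w + 1, rest w)` is at most `ε`.

(2) In particular, for all `z_j` in the unit disc and all bounded `B_j`, the average over the scales of
`|E_N ∏ f_j z_j ^ (count w) B_j (rest w)|` is at most `ε / |∏ z_j - 1|`.

(3) For every `w` and every vector `v` of natural numbers which is not constant there are `Φ_j` bounded by
one such that the mean over `n ≤ N` of `∏ Φ_j (count w, rest w) - ∏ Φ_j (count w + v_j, rest w)` is at
least `1` in absolute value for all large `N`. -/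
theorem result (k : ℕ) (hk : 0 < k) (a : Fin k → ℕ) (b : Fin k → ℤ) (ha : ∀ j, 1 ≤ a j) :
    (∀ ε : ℝ, 0 < ε → ∃ C : ℝ, ∀ J : ℕ, ∃ W : ℕ, ∀ N : ℕ, W ≤ N → ∀ f : Fin k → ℕ → ℂ,
      (∀ j, Mult (f j)) → (∀ p : ℕ, p.Prime → p ≤ W → ∏ j, f j p = 1) →
      ∀ Φ : Fin k → ℕ → ℕ → ℂ, (∀ j l r, ‖Φ j l r‖ ≤ 1) →
        ∑ i ∈ exceptional (gap a b W f Φ (fun _ => 1)) ε J N, 1 / (i : ℝ) ≤ C) ∧
    (∀ ε : ℝ, 0 < ε → ∃ w X₀ : ℕ, ∀ X : ℕ, X₀ ≤ X → ∀ f : Fin k → ℕ → ℂ, (∀ j, Mult (f j)) →
      (∀ p : ℕ, p.Prime → p ≤ w → ∏ j, f j p = 1) →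
      (∀ Φ : Fin k → ℕ → ℕ → ℂ, (∀ j l r, ‖Φ j l r‖ ≤ 1) →
        ∑ N ∈ Icc 1 X, 1 / (N : ℝ) * ‖gap a b w f Φ (fun _ => 1) N‖ ≤ ε * Real.log X) ∧
      ∀ (z : Fin k → ℂ) (B : Fin k → ℕ → ℂ), (∀ j, ‖z j‖ ≤ 1) → (∀ j r, ‖B j r‖ ≤ 1) →
        ‖∏ j, z j - 1‖ * ∑ N ∈ Icc 1 X, 1 / (N : ℝ) *
          ‖E N (prod a b w f (fun j l r => z j ^ l * B j r) (fun _ => 0))‖ ≤ ε * Real.log X) ∧
    ∀ (w : ℕ) (v : Fin k → ℕ), (∃ i j, v i ≠ v j) → ∃ Φ : Fin k → ℕ → ℕ → ℂ,
      (∀ j l r, ‖Φ j l r‖ ≤ 1) ∧ ∃ N₀ : ℕ, ∀ N : ℕ, N₀ ≤ N →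
        1 ≤ ‖gap a b w (fun _ _ => 1) Φ v N‖ := by
  have hE : ∀ (N : ℕ) (F : ℕ → ℂ), ‖E N F‖ = ‖∑ n ∈ Icc 1 N, F n‖ / N := by
    intro N F
    unfold E
    rw [norm_div, Complex.norm_natCast]
  have hG : ∀ (w : ℕ) (f : Fin k → ℕ → ℂ) (Φ : Fin k → ℕ → ℕ → ℂ) (N : ℕ),
      ‖gap a b w f Φ (fun _ => 1) N‖ = ‖Pool.Agent.Run7.h348.EF.dif a b w f Φ N‖ / N := by
    intro w f Φ N
    unfold gap
    rw [hE]
    rfl
  refine ⟨fun ε hε => ?_, fun ε hε => ?_, fun w v hv => ?_⟩
  · obtain ⟨C, hC⟩ := Pool.Agent.Run7.h348.EF.diag_few k a b hk ha ε hε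
    refine ⟨C, fun J => ?_⟩
    obtain ⟨W, hW⟩ := hC J
    refine ⟨W, fun N hN f hf h1 Φ hΦ => ?_⟩
    have h2 := hW N hN f Φ (fun j => (hf j).1) (fun j => (hf j).2) h1 hΦ
    refine le_trans (sum_le_sum_of_subset_of_nonneg ?_ fun _ _ _ => by positivity) h2
    intro i hi
    classical
    unfold exceptional at hi
    unfold Pool.Agent.N781.E.exc
    obtain ⟨h3, y, h4, h5, h6⟩ := Finset.mem_filter.mp hi
    refine Finset.mem_filter.mpr ⟨h3, y, h4, h5, ?_⟩
    rw [hG] at h6
    rcases Nat.eq_zero_or_pos y with h0 | h0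
    · subst h0
      simp at h6
      linarith
    · have hy : (0 : ℝ) < y := by exact_mod_cast h0
      rwa [lt_div_iff₀ hy] at h6
  · obtain ⟨w, X₀, H⟩ := Pool.Agent.Run7.h348.EF.diag k a b hk ha ε hε
    refine ⟨w, X₀, fun X hX f hf h1 => ?_⟩
    have main : ∀ Φ : Fin k → ℕ → ℕ → ℂ, (∀ j l r, ‖Φ j l r‖ ≤ 1) →
        ∑ N ∈ Icc 1 X, 1 / (N : ℝ) * ‖gap a b w f Φ (fun _ => 1) N‖ ≤ ε * Real.log X := by
      intro Φ hΦ
      have h2 := H X hX f Φ (fun j => (hf j).1) (fun j => (hf j).2) h1 hΦ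
      refine le_trans (le_of_eq ?_) h2
      refine sum_congr rfl fun N _ => ?_
      rw [hG]
    refine ⟨main, fun z B hz hB => ?_⟩
    have h3 := main (fun j l r => z j ^ l * B j r) (fun j l r => by
      rw [norm_mul, norm_pow]
      exact mul_le_one₀ (pow_le_one₀ (norm_nonneg _) (hz j)) (norm_nonneg _) (hB j r))
    refine le_trans (le_of_eq ?_) h3
    rw [mul_sum]
    refine sum_congr rfl fun N _ => ?_
    have h4 : gap a b w f (fun j l r => z j ^ l * B j r) (fun _ => 1) N =
        -((∏ j, z j - 1) * E N (prod a b w f (fun j l r => z j ^ l * B j r) (fun _ => 0))) := by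
      unfold gap E
      rw [mul_div_assoc', mul_sum, ← neg_div, ← sum_neg_distrib]
      congr 1
      refine sum_congr rfl fun n _ => ?_
      have h5 : prod a b w f (fun j l r => z j ^ l * B j r) (fun _ => 1) n =
          (∏ j, z j) * prod a b w f (fun j l r => z j ^ l * B j r) (fun _ => 0) n := by
        unfold prod
        rw [← prod_mul_distrib]
        refine prod_congr rfl fun j _ => ?_
        simp only [add_zero, pow_succ]
        ring
      beta_reduce
      rw [h5]
      ring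
    rw [h4, norm_neg, norm_mul]
    ring
  · obtain ⟨i, j, hij⟩ := hv
    obtain ⟨Φ, hΦ, N₀, hN₀⟩ := Pool.Agent.Run7.h348.EF.sharp k a b ha w v i j hij
    refine ⟨Φ, hΦ, N₀ + 1, fun N hN => ?_⟩
    have h1 := hN₀ N (by omega)
    have hN0 : (0 : ℝ) < N := by exact_mod_cast (by omega : 0 < N)
    unfold gap
    rw [hE, le_div_iff₀ hN0, one_mul]
    refine h1.trans (le_of_eq ?_)
    congr 1
    refine sum_congr rfl fun n _ => ?_
    unfold prod
    simp only [one_mul, add_zero]
    rfl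

end Pool.Agent.Results.MP_e0aac0_nt.SmallPrimesShift
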